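import Pool.Agent.Helper22.NR5c

/-!
# A combinatorially regular LFC tiling of `E^4` not isomorphic to a regular tiling

The definitions (`IsLFCTiling`, `FaceLattice`, `IsCombRegular`, `IsRegular`, `IsIsomorphic`) are in
`Pool/Agent/Helper22/TilingDefs.lean`.

Idea of the construction: take the vertices of the compact hyperbolic honeycomb `{3,3,3,5}` on the
hyperboloid in Minkowski space and project the boundary of their convex hull along the time axis.
In coordinates: on `Z[phi]^5` use the Lorentzian form with Gram matrix `1` on the diagonal and
`phi^3` off the diagonal; the tiles are the projections of the simplices spanned by the columns of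
the integral isometries of this form.
-/

namespace Pool.Agent.Results.MP_389659_co.CounterexampleDimFour

open Pool.Agent.Helper22 Pool.Agent.Helper22.RegTiling

/-- In dimension four there is a combinatorially regular locally finite face-to-face tiling by
convex polytopes which is not isomorphic to any regular tiling. -/
theorem result : ∃ 𝒯 : Set (Set (E 4)), IsLFCTiling 𝒯 ∧ IsCombRegular 𝒯 ∧
    ∀ 𝒯' : Set (Set (E 4)), IsLFCTiling 𝒯' → RegTiling.IsRegular 𝒯' → ¬ IsIsomorphic 𝒯 𝒯' :=
  ⟨T5, isLFC, combReg, fun 𝒯' h1 h2 => not_regular 𝒯' h1 h2⟩

end Pool.Agent.Results.MP_389659_co.CounterexampleDimFour
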